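import Pool.Agent.Y234.EM.Stm

/-! Project EM: arithmetic of the growth (`ari`, `lim`). -/

set_option autoImplicit false

namespace Pool.Agent.Y421.EM

open Filter Topology Pool.Agent.Y234.EM

theorem cn_eq {n : ℕ} (hn : 1 ≤ n) (v : ℕ) : v.factorial * cn n v = n.ascFactorial v := by
  obtain ⟨m, rfl⟩ : ∃ m, n = m + 1 := ⟨n - 1, by omega⟩
  rw [Nat.ascFactorial_eq_factorial_mul_choose]
  show _ * (m + 1 + v - 1).choose v = _
  rw [show m + 1 + v - 1 = m + v by omega]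

theorem cn_ge {n : ℕ} (hn : 1 ≤ n) (v : ℕ) : n ^ v ≤ v.factorial * cn n v := by
  rw [cn_eq hn]
  exact Nat.pow_succ_le_ascFactorial n v

theorem cn_le {n : ℕ} (hn : 1 ≤ n) (v : ℕ) : v.factorial * cn n v ≤ (n + v) ^ v := by
  rw [cn_eq hn]
  obtain ⟨m, rfl⟩ : ∃ m, n = m + 1 := ⟨n - 1, by omega⟩
  exact (Nat.ascFactorial_le_pow_add m v).trans (Nat.pow_le_pow_left (by omega) v)

theorem lim_aux (a b : ℝ) (v : ℕ) :
    Tendsto (fun n : ℕ => (((n : ℝ) + a) / ((n : ℝ) + b)) ^ v) atTop (𝓝 1) := by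
  have h1 : Tendsto (fun n : ℕ => (a - b) / ((n : ℝ) + b)) atTop (𝓝 0) :=
    (tendsto_atTop_add_const_right _ b tendsto_natCast_atTop_atTop).const_div_atTop (a - b)
  have h2 : Tendsto (fun n : ℕ => (1 + (a - b) / ((n : ℝ) + b)) ^ v) atTop (𝓝 ((1 + 0) ^ v)) :=
    (tendsto_const_nhds.add h1).pow v
  rw [add_zero, one_pow] at h2
  refine h2.congr' ?_
  obtain ⟨N, hN⟩ := exists_nat_gt (-b)
  filter_upwards [eventually_ge_atTop N] with n hn
  have : (N : ℝ) ≤ n := by exact_mod_cast hn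
  have h3 : (n : ℝ) + b ≠ 0 := by
    have : 0 < (n : ℝ) + b := by linarith
    exact this.ne'
  congr 1
  field_simp
  ring

theorem ari : S_ARI := by
  intro v e d N0 h
  have h1 : ∀ n : ℕ, 1 ≤ n → (e : ℝ) ≤ (v.factorial : ℝ) * d * (((n : ℝ) + N0) / ((n : ℝ) + 0)) ^ v := by
    intro n hn
    have h2 : e * n ^ v ≤ v.factorial * ((n + N0) ^ v * d) := by
      calc e * n ^ v ≤ e * (v.factorial * cn n v) := Nat.mul_le_mul_left _ (cn_ge hn v)
        _ = v.factorial * (e * cn n v) := by ring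
        _ ≤ _ := Nat.mul_le_mul_left _ (h n hn)
    have h3 : (e : ℝ) * (n : ℝ) ^ v ≤ v.factorial * (((n : ℝ) + N0) ^ v * d) := by
      exact_mod_cast h2
    have hn0 : (0 : ℝ) < n := by exact_mod_cast hn
    rw [add_zero, div_pow, mul_div_assoc', le_div_iff₀ (pow_pos hn0 v)]
    linarith
  have h2 := (lim_aux N0 0 v).const_mul ((v.factorial : ℝ) * d)
  rw [mul_one] at h2
  have h3 : (e : ℝ) ≤ (v.factorial : ℝ) * d := by
    refine ge_of_tendsto h2 ?_
    filter_upwards [eventually_ge_atTop 1] with n hn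
    exact h1 n hn
  exact_mod_cast h3

theorem lim : S_LIM := by
  intro v e N0 D he h1 h2
  have he' : (0 : ℝ) < e := by exact_mod_cast he
  have hcn : ∀ N : ℕ, 1 ≤ N → (0 : ℝ) < (cn N v : ℝ) := by
    intro N hN
    have : 0 < cn N v := Nat.choose_pos (by omega)
    exact_mod_cast this
  have hv : (0 : ℝ) < (v.factorial : ℝ) := by exact_mod_cast v.factorial_pos
  refine tendsto_of_tendsto_of_tendsto_of_le_of_le' (lim_aux (-(N0 : ℝ)) v v)
    tendsto_const_nhds ?_ ?_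
  · filter_upwards [eventually_ge_atTop (N0 + 1)] with N hN
    have hN1 : 1 ≤ N := by omega
    have h3 := h1 (N - N0) (by omega)
    rw [show N - N0 + N0 = N by omega] at h3
    have h4 := cn_ge (n := N - N0) (by omega) v
    have h5 := cn_le hN1 v
    have h3' : (e : ℝ) * (cn (N - N0) v : ℝ) ≤ D N := by exact_mod_cast h3
    have h4' : ((N : ℝ) + -(N0 : ℝ)) ^ v ≤ v.factorial * (cn (N - N0) v : ℝ) := by
      have : ((N - N0 : ℕ) : ℝ) = (N : ℝ) + -(N0 : ℝ) := by
        rw [Nat.cast_sub (by omega)]; ring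
      rw [← this]
      exact_mod_cast h4
    have h5' : (v.factorial : ℝ) * (cn N v : ℝ) ≤ ((N : ℝ) + v) ^ v := by exact_mod_cast h5
    have hNv : (0 : ℝ) < ((N : ℝ) + v) ^ v := by
      have : (0 : ℝ) < (N : ℝ) + v := by
        have : (1 : ℝ) ≤ N := by exact_mod_cast hN1
        positivity
      positivity
    rw [div_pow, div_le_div_iff₀ hNv (mul_pos he' (hcn N hN1))]
    calc ((N : ℝ) + -(N0 : ℝ)) ^ v * (e * (cn N v : ℝ))
        ≤ (v.factorial * (cn (N - N0) v : ℝ)) * (e * (cn N v : ℝ)) :=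
          mul_le_mul_of_nonneg_right h4' (mul_pos he' (hcn N hN1)).le
      _ = (e * (cn (N - N0) v : ℝ)) * (v.factorial * (cn N v : ℝ)) := by ring
      _ ≤ (D N : ℝ) * ((N : ℝ) + v) ^ v :=
          mul_le_mul h3' h5' (mul_pos hv (hcn N hN1)).le (Nat.cast_nonneg _)
  · filter_upwards [eventually_ge_atTop 1] with N hN
    rw [div_le_one (mul_pos he' (hcn N hN))]
    exact_mod_cast h2 N hN

end Pool.Agent.Y421.EM
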