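import Pool.Agent.Y234.EM.Stm

/-! Project EM: the elementary version of Lech's inequality (`lech`). -/

set_option autoImplicit false

namespace Pool.Agent.Y421.EM

open Pool.Agent.Y234.EM
open MvPolynomial

section

variable {k : Type} [Field k] {v : ℕ}

/-- the monomial order which is used -/
noncomputable abbrev mo (v : ℕ) : MonomialOrder (Fin v) := MonomialOrder.lex

/-- the standard exponents -/
def std (I : Ideal (MvPolynomial (Fin v) k)) : Set (Fin v →₀ ℕ) :=
  {a | ∀ g ∈ I, g ≠ 0 → (mo v).degree g ≠ a}

/-- reduction of the combinations of standard monomials -/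
noncomputable def red (I : Ideal (MvPolynomial (Fin v) k)) :
    restrictSupport k (std I) →ₗ[k] (MvPolynomial (Fin v) k ⧸ I) :=
  (Ideal.Quotient.mkₐ k I).toLinearMap ∘ₗ (restrictSupport k (std I)).subtype

theorem red_inj (I : Ideal (MvPolynomial (Fin v) k)) : Function.Injective (red I) := by
  rw [← LinearMap.ker_eq_bot, LinearMap.ker_eq_bot']
  rintro ⟨p, hp⟩ h
  have h1 : p ∈ I := Ideal.Quotient.eq_zero_iff_mem.1 h
  by_contra h2
  have hp0 : p ≠ 0 := fun h3 => h2 (Subtype.ext h3)
  have h3 : (mo v).degree p ∈ p.support := (mo v).degree_mem_support hp0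
  have h4 : (mo v).degree p ∈ std I := ((mem_restrictSupport_iff k).1 hp) h3
  exact h4 p h1 hp0 rfl

theorem mono_mem (I : Ideal (MvPolynomial (Fin v) k)) (W : Submodule k (MvPolynomial (Fin v) k))
    (h1 : ∀ a ∈ std I, monomial a (1 : k) ∈ W) (h2 : ∀ p ∈ I, p ∈ W) :
    ∀ a : Fin v →₀ ℕ, monomial a (1 : k) ∈ W := by
  intro a
  induction hs : (mo v).toSyn a using (mo v).wellFoundedLT_syn.wf.induction generalizing a with
  | _ s ih =>
    by_cases ha : a ∈ std I
    · exact h1 a ha
    · unfold std at ha
      rw [Set.mem_ofPred_eq] at ha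
      push Not at ha
      obtain ⟨g, hg, hg0, hga⟩ := ha
      have hc : g.coeff a ≠ 0 := by
        rw [← hga]
        exact (mo v).coeff_degree_ne_zero_iff.2 hg0
      have hsum : g = ∑ b ∈ g.support, g.coeff b • monomial b (1 : k) := by
        conv_lhs => rw [g.as_sum]
        refine Finset.sum_congr rfl fun b _ => ?_
        rw [smul_monomial, smul_eq_mul, mul_one]
      have hmem : a ∈ g.support := mem_support_iff.2 hc
      have h3 := Finset.add_sum_erase g.support (fun b => g.coeff b • monomial b (1 : k)) hmem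
      have h4 : g.coeff a • monomial a (1 : k) ∈ W := by
        have e : g.coeff a • monomial a (1 : k) =
            g - ∑ b ∈ g.support.erase a, g.coeff b • monomial b (1 : k) := by
          rw [eq_sub_iff_add_eq, h3]
          exact hsum.symm
        rw [e]
        refine W.sub_mem (h2 g hg) (W.sum_mem fun b hb => W.smul_mem _ ?_)
        rw [Finset.mem_erase] at hb
        have h5 := (mo v).le_degree hb.2
        rw [hga, hs] at h5
        refine ih _ (lt_of_le_of_ne h5 ?_) b rfl
        intro h6
        rw [← hs] at h6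
        exact hb.1 ((mo v).toSyn.injective h6)
      have h5 := W.smul_mem (g.coeff a)⁻¹ h4
      rwa [smul_smul, inv_mul_cancel₀ hc, one_smul] at h5

theorem red_surj (I : Ideal (MvPolynomial (Fin v) k)) : Function.Surjective (red I) := by
  intro y
  obtain ⟨p, rfl⟩ := Ideal.Quotient.mk_surjective y
  set W : Submodule k (MvPolynomial (Fin v) k) :=
    (LinearMap.range (red I)).comap (Ideal.Quotient.mkₐ k I).toLinearMap with hW
  have h : p ∈ W := by
    have h1 := mono_mem I W (fun a ha => by
      refine ⟨⟨monomial a 1, (monomial_mem_restrictSupport k).2 (Or.inl ha)⟩, rfl⟩) (fun p hp => by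
      refine ⟨0, ?_⟩
      rw [map_zero]
      exact (Ideal.Quotient.eq_zero_iff_mem.2 hp).symm)
    rw [p.as_sum]
    refine W.sum_mem fun b _ => ?_
    have : monomial b (p.coeff b) = p.coeff b • monomial b (1 : k) := by
      rw [smul_monomial, smul_eq_mul, mul_one]
    rw [this]
    exact W.smul_mem _ (h1 b)
  obtain ⟨x, hx⟩ := h
  exact ⟨x, hx⟩

/-- the basis of the quotient -/
noncomputable def bas (I : Ideal (MvPolynomial (Fin v) k)) :
    Module.Basis (std I) k (MvPolynomial (Fin v) k ⧸ I) :=
  (basisRestrictSupport k (std I)).map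
    (LinearEquiv.ofBijective (red I) ⟨red_inj I, red_surj I⟩)

/-- powers -/
theorem std_pow (J : Ideal (MvPolynomial (Fin v) k)) {n : ℕ} {a : Fin v →₀ ℕ}
    (ha : a ∈ std (J ^ n)) : Finsupp.equivFunOnFinite.symm (fun i => a i / n) ∈ std J := by
  intro g hg hg0 hdeg
  set b : Fin v →₀ ℕ := Finsupp.equivFunOnFinite.symm (fun i => a i / n) with hb
  set c : Fin v →₀ ℕ := Finsupp.equivFunOnFinite.symm (fun i => a i % n) with hc
  have hac : a = n • b + c := by
    ext i
    rw [Finsupp.add_apply, Finsupp.smul_apply, hb, hc]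
    simp only [Finsupp.equivFunOnFinite_symm_apply_apply, smul_eq_mul]
    exact (Nat.div_add_mod _ _).symm
  have h1 : g ^ n * monomial c (1 : k) ∈ J ^ n := Ideal.mul_mem_right _ _ (Ideal.pow_mem_pow hg n)
  have hm0 : monomial c (1 : k) ≠ 0 := by
    rw [Ne, monomial_eq_zero]
    exact one_ne_zero
  have h2 : g ^ n * monomial c (1 : k) ≠ 0 := mul_ne_zero (pow_ne_zero n hg0) hm0
  apply ha _ h1 h2
  classical
  rw [(mo v).degree_mul (pow_ne_zero n hg0) hm0, (mo v).degree_pow, hdeg,
    (mo v).degree_monomial, if_neg one_ne_zero]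
  exact hac.symm

theorem lech : S_LECH := by
  intro k _ v J _ n
  rcases Nat.eq_zero_or_pos n with rfl | hn
  · have : Subsingleton (MvPolynomial (Fin v) k ⧸ J ^ 0) := by
      rw [pow_zero, Ideal.one_eq_top]
      exact Ideal.Quotient.subsingleton_iff.2 rfl
    refine ⟨inferInstance, ?_⟩
    unfold dg
    rw [Module.finrank_zero_of_subsingleton]
    exact Nat.zero_le _
  · have hJfin : Finite (std J) := Module.Finite.finite_basis (bas J)
    let F : std (J ^ n) → std J × (Fin v → Fin n) := fun a =>
      (⟨_, std_pow J a.2⟩, fun i => ⟨a.1 i % n, Nat.mod_lt _ hn⟩)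
    have hF : Function.Injective F := by
      intro a b hab
      apply Subtype.ext
      ext i
      have h1 := congrArg (fun x => x.1.1 i) hab
      have h2 := congrArg (fun x => (x.2 i : ℕ)) hab
      simp only [F, Finsupp.equivFunOnFinite_symm_apply_apply] at h1 h2
      rw [← Nat.div_add_mod (a.1 i) n, ← Nat.div_add_mod (b.1 i) n, h1, h2]
    have hfin : Finite (std (J ^ n)) := Finite.of_injective F hF
    refine ⟨Module.Finite.of_basis (bas (J ^ n)), ?_⟩
    unfold dg
    rw [Module.finrank_eq_nat_card_basis (bas (J ^ n)), Module.finrank_eq_nat_card_basis (bas J)]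
    have h3 := Nat.card_le_card_of_injective F hF
    rw [Nat.card_prod, Nat.card_fun, Nat.card_eq_fintype_card (α := Fin v),
      Nat.card_eq_fintype_card (α := Fin n), Fintype.card_fin, Fintype.card_fin] at h3
    rw [mul_comm]
    exact h3

end

end Pool.Agent.Y421.EM
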